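import Mathlib

set_option autoImplicit false

/-!
# Project TS (MP_61a569_nt): the numbers `φ(k) + φ(n - k) / 2 + 1` in an ARBITRARY set of odd numbers

`q(n,k) = φ(k) + φ(n - k) / 2 + 1`. With primes `r`, `s ≠ 3`, `k = r`, `n = r + 3 s`: `q(n,k) = r + s - 1`.
Let `W ⊆ [X, 2 X]` be ANY set of at least `X / (log X)^C` odd numbers. For most `m ∈ W` (Goldbach for almost all even numbers)
`m + 1 = r + s` has at least `X / (8 (log X)^2)` solutions, and `n = r + 3 s = m + 2 s + 1`. Cauchy-Schwarz: a coincidence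
`m + 2 s = m' + 2 s'` with `m = m' + 2 h`, `h ≥ 1`, has `s' = s + h`, `r' = r - 3 h`, so `s`, `s + h`, `a - s`, `a - 3 h - s`
(`a = m + 1`) are prime: upper bound sieve.
-/

namespace Pool.Agent.V7H38.TS

open Finset

/-- the primes `s` with `a - s` prime -/
def reps (a : ℕ) : Finset ℕ := (range (a + 1)).filter (fun s => s.Prime ∧ (a - s).Prime)

/-- the `s` for which also `s + h` and `a - 3 h - s` are prime -/
def quad (a h : ℕ) : Finset ℕ := (reps a).filter (fun s => (s + h).Prime ∧ (a - 3 * h - s).Prime)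

/-- GOLD. Goldbach's problem for almost all even numbers: `Pool.Agent.W93.GB.fam 1 3 0 (U + 1) .. (1/2)` (W93/GB4.lean) with
`N = x = 3 X`, `s m = 2 m`, energy `= N`; `g (2 m)` of H560R3/GB/Defs is `(reps (2 m)).card`, `sing ≥ 1` is
`Pool.Agent.Y886.PP.sing_ge` (or `Pool.Agent.R460.GS.one_le_sing`). -/
def S_GOLD : Prop := ∀ U : ℕ, ∃ X₀ : ℕ, ∀ X : ℕ, X₀ ≤ X → ∀ T : Finset ℕ, T ⊆ Icc X (3 * X) →
  (∀ a ∈ T, Even a ∧ ((reps a).card : ℝ) < X / (8 * Real.log X ^ 2)) → (T.card : ℝ) ≤ X / Real.log X ^ U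

/-- PROD. `∏_{p ∣ M, p > 10} p / (p - 4) ≤ C (M / φ(M))^4 ≤ C (log log X)^4`. -/
def S_PROD : Prop := ∃ C : ℝ, 0 < C ∧ ∃ X₀ : ℕ, ∀ X : ℕ, X₀ ≤ X → ∀ M : ℕ, M ≠ 0 → M ≤ X ^ 6 →
  ∏ p ∈ M.primeFactors.filter (fun p => 10 < p), (p : ℝ) / ((p : ℝ) - 4) ≤ C * Real.log (Real.log X) ^ 4

/-- SIEVE. The upper bound sieve for the four forms `s`, `s + h`, `a - s`, `a - 3 h - s`: copy the proof of
`Pool.Agent.Y886.PP.rn_le` (Y886/PPB.lean; `svr2 (Fin 4) 10`, `M = h a (a - 3 h) (a + h) (a - 2 h)`, the set is empty if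
`3 h ≥ a`). -/
def S_SIEVE : Prop := ∃ C : ℝ, 0 < C ∧ ∃ X₀ : ℕ, ∀ X : ℕ, X₀ ≤ X → ∀ a h : ℕ, X ≤ a → a ≤ 3 * X → 1 ≤ h → h ≤ X →
  ((quad a h).card : ℝ) ≤ C * X * Real.log (Real.log X) ^ 4 / Real.log X ^ 4

/-- `q n k = φ(k) + φ(n - k) / 2 + 1`. -/
def q (n k : ℕ) : ℕ := Nat.totient k + Nat.totient (n - k) / 2 + 1

/-- the `k`, `1 ≤ k < n - 2`, with `q(n,k) ∈ W` -/
def ks (W : Finset ℕ) (n : ℕ) : Finset ℕ := (Ico 1 (n - 2)).filter (fun k => q n k ∈ W)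

open Classical in
/-- ASM: the final statement. -/
def S_TS : Prop := ∃ c : ℝ, 0 < c ∧ ∀ C : ℕ, ∃ X₀ : ℕ, ∀ X : ℕ, X₀ ≤ X → ∀ W : Finset ℕ, W ⊆ Icc X (2 * X) →
  (∀ m ∈ W, Odd m) → (X : ℝ) / Real.log X ^ C ≤ W.card →
  c * X / Real.log (Real.log X) ^ 4 ≤
    (((Icc 32 (6 * X)).filter (fun n => c * W.card / Real.log X ^ 2 ≤ ((ks W n).card : ℝ))).card : ℝ)

end Pool.Agent.V7H38.TS
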