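import Pool.Agent.V7H38.TS.Spec

set_option autoImplicit false

/-! # Project TS: the assembly (Cauchy-Schwarz) -/

namespace Pool.Agent.V7H38.TS

open Finset Filter

/-- the value at a prime and three times a prime -/
lemma q_val {r s : ℕ} (hr : r.Prime) (hs : s.Prime) (h3 : s ≠ 3) : q (r + 3 * s) r = r + s - 1 := by
  unfold q
  have hc : Nat.Coprime 3 s := (Nat.coprime_primes Nat.prime_three hs).2 (Ne.symm h3)
  rw [Nat.totient_prime hr, show r + 3 * s - r = 3 * s by omega, Nat.totient_mul hc,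
    Nat.totient_prime Nat.prime_three, Nat.totient_prime hs]
  have h1 := hr.two_le
  have h2 := hs.two_le
  have h4 : (3 - 1) * (s - 1) = 2 * (s - 1) := by norm_num
  rw [h4]
  omega

/-- the pairs `(m, s)` -/
def pr (V : Finset ℕ) (X : ℕ) : Finset (ℕ × ℕ) :=
  (V ×ˢ range (3 * X)).filter (fun z => z.2 ∈ reps (z.1 + 1) ∧ z.2 ≠ 3)

/-- the number `n` of a pair -/
def nu (z : ℕ × ℕ) : ℕ := z.1 + 2 * z.2 + 1

lemma mem_reps {a s : ℕ} : s ∈ reps a ↔ s.Prime ∧ (a - s).Prime := by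
  unfold reps
  rw [mem_filter, mem_range]
  constructor
  · exact fun h => h.2
  · intro h
    have := h.2.two_le
    exact ⟨by omega, h⟩

lemma mem_pr {V : Finset ℕ} {X : ℕ} (hV : V ⊆ Icc X (2 * X)) {z : ℕ × ℕ} :
    z ∈ pr V X ↔ z.1 ∈ V ∧ z.2.Prime ∧ (z.1 + 1 - z.2).Prime ∧ z.2 ≠ 3 := by
  unfold pr
  rw [mem_filter, mem_product, mem_range, mem_reps]
  constructor
  · rintro ⟨⟨h1, _⟩, ⟨h2, h3⟩, h4⟩
    exact ⟨h1, h2, h3, h4⟩
  · rintro ⟨h1, h2, h3, h4⟩
    have h5 := mem_Icc.1 (hV h1)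
    have h6 := h3.two_le
    have h7 := h2.two_le
    refine ⟨⟨h1, by omega⟩, ⟨h2, h3⟩, h4⟩

lemma nu_mem {V : Finset ℕ} {X : ℕ} (hX : 32 ≤ X) (hV : V ⊆ Icc X (2 * X)) {z : ℕ × ℕ} (hz : z ∈ pr V X) :
    nu z ∈ Icc 32 (6 * X) := by
  rw [mem_pr hV] at hz
  obtain ⟨h1, h2, h3, _⟩ := hz
  have h5 := mem_Icc.1 (hV h1)
  have h6 := h3.two_le
  unfold nu
  rw [mem_Icc]
  omega

/-- the number of the pairs over `n` -/
def wt (V : Finset ℕ) (X n : ℕ) : ℕ := ((pr V X).filter (fun z => nu z = n)).card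

lemma wt_le {V W : Finset ℕ} {X : ℕ} (_hX : 32 ≤ X) (hW : W ⊆ Icc X (2 * X)) (hVW : V ⊆ W) (n : ℕ) :
    wt V X n ≤ (ks W n).card := by
  have hV := hVW.trans hW
  unfold wt
  apply card_le_card_of_injOn (fun z => z.1 + 1 - z.2)
  · intro z hz
    rw [mem_coe, mem_filter, mem_pr hV] at hz
    obtain ⟨⟨h1, h2, h3, h4⟩, h5⟩ := hz
    have h6 := h3.two_le
    have h7 := h2.two_le
    have h8 := mem_Icc.1 (hV h1)
    unfold nu at h5
    have e1 : n = (z.1 + 1 - z.2) + 3 * z.2 := by omega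
    unfold ks
    rw [mem_coe, mem_filter, mem_Ico]
    beta_reduce
    refine ⟨⟨by omega, by omega⟩, ?_⟩
    rw [e1, q_val h3 h2 h4]
    have e2 : z.1 + 1 - z.2 + z.2 - 1 = z.1 := by omega
    rw [e2]
    exact hVW h1
  · intro z hz z' hz' h
    rw [mem_coe, mem_filter, mem_pr hV] at hz hz'
    obtain ⟨⟨_, _, h3, _⟩, h5⟩ := hz
    obtain ⟨⟨_, _, h3', _⟩, h5'⟩ := hz'
    have h6 := h3.two_le
    have h6' := h3'.two_le
    simp only at h
    unfold nu at h5 h5'
    apply Prod.ext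
    · omega
    · omega

lemma sum_wt {V : Finset ℕ} {X : ℕ} (hX : 32 ≤ X) (hV : V ⊆ Icc X (2 * X)) :
    (pr V X).card = ∑ n ∈ Icc 32 (6 * X), wt V X n := by
  unfold wt
  exact card_eq_sum_card_fiberwise (fun z hz => nu_mem hX hV hz)

/-- the number of the pairs -/
lemma pr_ge {V : Finset ℕ} {X : ℕ} (hV : V ⊆ Icc X (2 * X)) (B : ℝ)
    (h : ∀ m ∈ V, B ≤ ((reps (m + 1)).card : ℝ)) : (V.card : ℝ) * (B - 1) ≤ ((pr V X).card : ℝ) := by
  have h1 : (pr V X).card = ∑ m ∈ V, ((pr V X).filter (fun z => z.1 = m)).card := by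
    apply card_eq_sum_card_fiberwise
    intro z hz
    exact ((mem_pr hV).1 hz).1
  rw [h1]
  push_cast
  rw [← nsmul_eq_mul]
  apply card_nsmul_le_sum
  intro m hm
  have h2 : (reps (m + 1)).erase 3 ⊆ ((pr V X).filter (fun z => z.1 = m)).image Prod.snd := by
    intro s hs
    rw [mem_erase, mem_reps] at hs
    rw [mem_image]
    exact ⟨(m, s), by rw [mem_filter, mem_pr hV]; exact ⟨⟨hm, hs.2.1, hs.2.2, hs.1⟩, rfl⟩, rfl⟩
  have h3 := (card_le_card h2).trans card_image_le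
  have h4 := pred_card_le_card_erase (s := reps (m + 1)) (a := 3)
  have h5 : (reps (m + 1)).card ≤ ((pr V X).filter (fun z => z.1 = m)).card + 1 := by omega
  have h6 : ((reps (m + 1)).card : ℝ) ≤ (((pr V X).filter (fun z => z.1 = m)).card : ℝ) + 1 := by exact_mod_cast h5
  linarith [h m hm]

/-- the coincidences -/
def coin (V : Finset ℕ) (X : ℕ) : Finset ((ℕ × ℕ) × (ℕ × ℕ)) :=
  (pr V X ×ˢ pr V X).filter (fun y => nu y.1 = nu y.2)

lemma sum_sq {V : Finset ℕ} {X : ℕ} (G : Finset ℕ) : ∑ n ∈ G, (wt V X n : ℝ) ^ 2 ≤ ((coin V X).card : ℝ) := by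
  have h1 : ∑ n ∈ G, (wt V X n) ^ 2 ≤ (coin V X).card := by
    have e : ∀ n ∈ G, (wt V X n) ^ 2 = ((coin V X).filter (fun y => nu y.1 = n)).card := by
      intro n _
      unfold wt coin
      rw [sq, ← card_product]
      congr 1
      ext y
      simp only [mem_product, mem_filter]
      constructor
      · rintro ⟨⟨a1, a2⟩, ⟨a3, a4⟩⟩
        exact ⟨⟨⟨a1, a3⟩, by rw [a2, a4]⟩, a2⟩
      · rintro ⟨⟨⟨a1, a3⟩, a5⟩, a2⟩
        exact ⟨⟨a1, a2⟩, ⟨a3, by rw [← a5, a2]⟩⟩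
    rw [sum_congr rfl e]
    have h2 := card_eq_sum_card_fiberwise (f := fun y : (ℕ × ℕ) × (ℕ × ℕ) => nu y.1)
      (s := (coin V X).filter (fun y => nu y.1 ∈ G)) (t := G) (by
        intro y hy
        rw [mem_coe, mem_filter] at hy
        exact hy.2)
    have h3 : ∀ n ∈ G, ((coin V X).filter (fun y => nu y.1 = n)).card =
        (((coin V X).filter (fun y => nu y.1 ∈ G)).filter (fun y => nu y.1 = n)).card := by
      intro n hn
      congr 1
      ext y
      simp only [mem_filter]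
      constructor
      · rintro ⟨a1, a2⟩
        exact ⟨⟨a1, by rw [a2]; exact hn⟩, a2⟩
      · rintro ⟨⟨a1, _⟩, a2⟩
        exact ⟨a1, a2⟩
    rw [sum_congr rfl h3, ← h2]
    exact card_le_card (filter_subset _ _)
  exact_mod_cast h1

lemma coin_le {V : Finset ℕ} {X : ℕ} (hX : 1 ≤ X) (hV : V ⊆ Icc X (2 * X)) (hodd : ∀ m ∈ V, Odd m) (B : ℝ)
    (hB : ∀ a h : ℕ, X ≤ a → a ≤ 3 * X → 1 ≤ h → h ≤ X → ((quad a h).card : ℝ) ≤ B) :
    ((coin V X).card : ℝ) ≤ V.card * (3 * X) + 2 * (V.card : ℝ) ^ 2 * B := by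
  classical
  obtain ⟨Qe, hQe⟩ : ∃ Qe, Qe = (coin V X).filter (fun y => y.1.1 = y.2.1) := ⟨_, rfl⟩
  obtain ⟨Qg, hQg⟩ : ∃ Qg, Qg = (coin V X).filter (fun y => y.2.1 < y.1.1) := ⟨_, rfl⟩
  obtain ⟨Ql, hQl⟩ : ∃ Ql, Ql = (coin V X).filter (fun y => y.1.1 < y.2.1) := ⟨_, rfl⟩
  have hsub : coin V X ⊆ Qe ∪ (Qg ∪ Ql) := by
    intro y hy
    rw [hQe, hQg, hQl, mem_union, mem_union, mem_filter, mem_filter, mem_filter]
    rcases lt_trichotomy y.1.1 y.2.1 with h | h | h
    · exact Or.inr (Or.inr ⟨hy, h⟩)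
    · exact Or.inl ⟨hy, h⟩
    · exact Or.inr (Or.inl ⟨hy, h⟩)
  have h1 : (coin V X).card ≤ Qe.card + (Qg.card + Ql.card) :=
    (card_le_card hsub).trans ((card_union_le _ _).trans (Nat.add_le_add_left (card_union_le _ _) _))
  have hmem : ∀ y : (ℕ × ℕ) × (ℕ × ℕ), y ∈ coin V X ↔ (y.1 ∈ pr V X ∧ y.2 ∈ pr V X) ∧ nu y.1 = nu y.2 := by
    intro y
    unfold coin
    rw [mem_filter, mem_product]
  -- the diagonal
  have he : Qe.card ≤ V.card * (3 * X) := by
    have h2 : Qe.card ≤ (pr V X).card := by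
      apply card_le_card_of_injOn (fun y => y.1)
      · intro y hy
        rw [hQe, mem_coe, mem_filter, hmem] at hy
        exact hy.1.1.1
      · intro y hy y' hy' h
        rw [hQe, mem_coe, mem_filter, hmem] at hy hy'
        have a1 := hy.1.2
        have a2 := hy'.1.2
        simp only at h
        unfold nu at a1 a2
        have a3 := hy.2
        have a4 := hy'.2
        have b1 : y.1.1 = y'.1.1 := by rw [h]
        have b2 : y.1.2 = y'.1.2 := by rw [h]
        refine Prod.ext h (Prod.ext ?_ ?_) <;> omega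
    refine h2.trans ?_
    unfold pr
    refine (card_le_card (filter_subset _ _)).trans ?_
    rw [card_product, card_range]
  -- the pairs with `m > m'`
  have key : ∀ m ∈ V, ∀ m' ∈ V, m' < m → (((coin V X).filter (fun y => y.1.1 = m ∧ y.2.1 = m')).card : ℝ) ≤ B := by
    intro m hm m' hm' hlt
    have a1 := mem_Icc.1 (hV hm)
    have a2 := mem_Icc.1 (hV hm')
    obtain ⟨i, hi⟩ := hodd m hm
    obtain ⟨j, hj⟩ := hodd m' hm'
    refine le_trans ?_ (hB (m + 1) (i - j) (by omega) (by omega) (by omega) (by omega))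
    apply Nat.cast_le.2
    apply card_le_card_of_injOn (fun y => y.1.2)
    · intro y hy
      rw [mem_coe, mem_filter, hmem, mem_pr hV, mem_pr hV] at hy
      obtain ⟨⟨⟨⟨_, b2, b3, _⟩, ⟨_, b5, b6, _⟩⟩, b7⟩, b8, b9⟩ := hy
      unfold nu at b7
      rw [mem_coe]
      unfold quad
      rw [mem_filter, mem_reps]
      simp only
      have c1 : y.1.2 + (i - j) = y.2.2 := by omega
      have c2 : m + 1 - 3 * (i - j) - y.1.2 = y.2.1 + 1 - y.2.2 := by
        have := b6.two_le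
        omega
      rw [c1, c2, ← b8]
      exact ⟨⟨b2, b3⟩, b5, b6⟩
    · intro y hy y' hy' h
      rw [mem_coe, mem_filter, hmem] at hy hy'
      obtain ⟨⟨_, b7⟩, b8, b9⟩ := hy
      obtain ⟨⟨_, b7'⟩, b8', b9'⟩ := hy'
      simp only at h
      unfold nu at b7 b7'
      refine Prod.ext (Prod.ext ?_ h) (Prod.ext ?_ ?_) <;> omega
  have hB0 : 0 ≤ B := le_trans (Nat.cast_nonneg _) (hB X 1 le_rfl (by omega) le_rfl hX)
  have hg : (Qg.card : ℝ) ≤ (V.card : ℝ) ^ 2 * B := by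
    have h2 := card_eq_sum_card_fiberwise (f := fun y : (ℕ × ℕ) × (ℕ × ℕ) => (y.1.1, y.2.1)) (s := Qg) (t := V ×ˢ V) (by
      intro y hy
      rw [hQg, mem_coe, mem_filter, hmem, mem_pr hV, mem_pr hV] at hy
      rw [mem_coe, mem_product]
      exact ⟨hy.1.1.1.1, hy.1.1.2.1⟩)
    rw [h2]
    push_cast
    have h3 : ∀ z ∈ V ×ˢ V, ((Qg.filter (fun y => (y.1.1, y.2.1) = z)).card : ℝ) ≤ B := by
      rintro ⟨m, m'⟩ hz
      rw [mem_product] at hz
      by_cases hlt : m' < m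
      · refine le_trans ?_ (key m hz.1 m' hz.2 hlt)
        apply Nat.cast_le.2
        apply card_le_card
        intro y hy
        rw [mem_filter, hQg, mem_filter] at hy
        rw [mem_filter]
        have := Prod.ext_iff.1 hy.2
        exact ⟨hy.1.1, this.1, this.2⟩
      · have h4 : Qg.filter (fun y => (y.1.1, y.2.1) = (m, m')) = ∅ := by
          rw [filter_eq_empty_iff]
          intro y hy h5
          rw [hQg, mem_filter] at hy
          have := Prod.ext_iff.1 h5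
          simp only at this
          omega
        rw [h4, card_empty, Nat.cast_zero]
        exact hB0
    refine (sum_le_card_nsmul _ _ _ h3).trans (le_of_eq ?_)
    rw [card_product, nsmul_eq_mul]
    push_cast
    ring
  have hl : (Ql.card : ℝ) ≤ (V.card : ℝ) ^ 2 * B := by
    refine le_trans ?_ hg
    apply Nat.cast_le.2
    apply card_le_card_of_injOn Prod.swap
    · intro y hy
      rw [hQl, mem_coe, mem_filter, hmem] at hy
      rw [hQg, mem_coe, mem_filter, hmem]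
      exact ⟨⟨⟨hy.1.1.2, hy.1.1.1⟩, hy.1.2.symm⟩, hy.2⟩
    · intro y _ y' _ h
      exact Prod.swap_injective h
  have h1' : ((coin V X).card : ℝ) ≤ (Qe.card : ℝ) + ((Qg.card : ℝ) + Ql.card) := by exact_mod_cast h1
  have he' : (Qe.card : ℝ) ≤ V.card * (3 * X) := by exact_mod_cast he
  linarith

end Pool.Agent.V7H38.TS
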