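import Pool.Agent.V7H38.TS.ASM

set_option autoImplicit false

/-! # Project TS: the final numbers -/

namespace Pool.Agent.V7H38.TS

open Finset Filter

lemma ev_num (C : ℕ) : ∃ X₀ : ℕ, ∀ X : ℕ, X₀ ≤ X → 32 ≤ X ∧ 2 ≤ Real.log X ∧ 1 ≤ Real.log (Real.log X) ∧
    Real.log X ^ (C + 4) ≤ X ∧ 16 * Real.log X ^ 2 ≤ X := by
  have tN : Tendsto (fun N : ℕ => (N : ℝ)) atTop atTop := tendsto_natCast_atTop_atTop
  have tL : Tendsto (fun N : ℕ => Real.log (N : ℝ)) atTop atTop := Real.tendsto_log_atTop.comp tN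
  have tLL : Tendsto (fun N : ℕ => Real.log (Real.log (N : ℝ))) atTop atTop := Real.tendsto_log_atTop.comp tL
  have e : ∀ (k : ℕ) (ε : ℝ), 0 < ε → ∀ᶠ N : ℕ in atTop, Real.log N ^ k ≤ ε * N := by
    intro k ε hε
    have h := ((isLittleO_log_rpow_rpow_atTop (k : ℝ) (by norm_num : (0 : ℝ) < 1)).comp_tendsto tN).bound hε
    filter_upwards [h, eventually_ge_atTop 1] with N hN hN1
    have hN1' : (1 : ℝ) ≤ N := by exact_mod_cast hN1
    have hl := Real.log_nonneg hN1'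
    simp only [Function.comp_def, Real.rpow_natCast, Real.rpow_one] at hN
    rw [Real.norm_of_nonneg (by positivity), Real.norm_of_nonneg (by positivity)] at hN
    exact hN
  obtain ⟨X₀, h⟩ := eventually_atTop.1 ((eventually_ge_atTop 32).and ((tL.eventually_ge_atTop 2).and
    ((tLL.eventually_ge_atTop 1).and ((e (C + 4) 1 one_pos).and (e 2 (1 / 16) (by norm_num))))))
  refine ⟨X₀, fun X hX => ?_⟩
  obtain ⟨h1, h2, h3, h4, h5⟩ := h X hX
  exact ⟨h1, h2, h3, by linarith, by linarith⟩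

theorem t_ASM (hG : S_GOLD) (hS : S_SIEVE) : S_TS := by
  classical
  obtain ⟨C₁, hC₁, X₁, hsv⟩ := hS
  obtain ⟨c, hc⟩ : ∃ c : ℝ, c = min (1 / 384) (1 / (4096 * (4 + 2 * C₁))) := ⟨_, rfl⟩
  have hc0 : 0 < c := by rw [hc]; positivity
  have hc1 : c ≤ 1 / 384 := by rw [hc]; exact min_le_left _ _
  have hc2 : c ≤ 1 / (4096 * (4 + 2 * C₁)) := by rw [hc]; exact min_le_right _ _
  refine ⟨c, hc0, fun C => ?_⟩
  obtain ⟨X₂, hgold⟩ := hG (C + 1)
  obtain ⟨X₃, hnum⟩ := ev_num C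
  refine ⟨max X₁ (max X₂ X₃), fun X hX W hW hodd hcard => ?_⟩
  have hsv' := hsv X ((le_max_left _ _).trans hX)
  have hgold' := hgold X ((le_max_left _ _).trans ((le_max_right _ _).trans hX))
  obtain ⟨n1, n2, n3, n4, n5⟩ := hnum X ((le_max_right _ _).trans ((le_max_right _ _).trans hX))
  obtain ⟨L, hL⟩ : ∃ L, L = Real.log X := ⟨_, rfl⟩
  obtain ⟨M, hM⟩ : ∃ M, M = Real.log (Real.log X) := ⟨_, rfl⟩
  rw [← hL] at n2 n4 n5 hcard
  rw [← hM] at n3
  have hX0 : (0 : ℝ) < X := by exact_mod_cast (by omega : 0 < X)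
  have hX32 : (32 : ℝ) ≤ X := by exact_mod_cast n1
  have hL0 : 0 < L := by linarith
  have hM0 : 0 < M := by linarith
  obtain ⟨w, hw⟩ : ∃ w : ℝ, w = W.card := ⟨_, rfl⟩
  rw [← hw] at hcard
  have hwL : L ^ 4 ≤ w := by
    refine le_trans ?_ hcard
    rw [le_div_iff₀ (by positivity), ← pow_add]
    rw [add_comm 4 C]
    exact n4
  have hw1 : 1 ≤ w := le_trans (one_le_pow₀ (by linarith)) hwL
  have hw0 : 0 < w := by linarith
  -- the good elements
  obtain ⟨V, hV⟩ : ∃ V, V = W.filter (fun m => (X : ℝ) / (8 * L ^ 2) ≤ ((reps (m + 1)).card : ℝ)) := ⟨_, rfl⟩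
  have hVW : V ⊆ W := by rw [hV]; exact filter_subset _ _
  have hVI := hVW.trans hW
  have hVc : w / 2 ≤ (V.card : ℝ) := by
    have h1 := hgold' ((W \ V).image (fun m => m + 1)) (by
      intro a ha
      rw [mem_image] at ha
      obtain ⟨m, hm, rfl⟩ := ha
      have h2 := mem_Icc.1 (hW (Finset.mem_sdiff.1 hm).1)
      rw [mem_Icc]
      omega) (by
      intro a ha
      rw [mem_image] at ha
      obtain ⟨m, hm, rfl⟩ := ha
      rw [Finset.mem_sdiff] at hm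
      refine ⟨(hodd m hm.1).add_one, ?_⟩
      by_contra hcon
      push Not at hcon
      apply hm.2
      rw [hV, mem_filter]
      rw [← hL] at hcon
      exact ⟨hm.1, hcon⟩)
    rw [card_image_of_injective _ (add_left_injective 1), ← hL] at h1
    have h3 : ((W \ V).card : ℝ) = w - V.card := by
      have := card_sdiff_add_card_eq_card hVW
      rw [hw, eq_sub_iff_add_eq]
      exact_mod_cast this
    rw [h3] at h1
    have h4 : (X : ℝ) / L ^ (C + 1) ≤ w / 2 := by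
      rw [pow_succ, ← div_div]
      calc (X : ℝ) / L ^ C / L ≤ w / L := by gcongr
        _ ≤ w / 2 := by gcongr
    linarith
  -- the pairs
  have hP : w * X / (32 * L ^ 2) ≤ ((pr V X).card : ℝ) := by
    have h1 := pr_ge hVI ((X : ℝ) / (8 * L ^ 2)) (fun m hm => by
      rw [hV, mem_filter] at hm
      exact hm.2)
    refine le_trans ?_ h1
    have h2 : (X : ℝ) / (16 * L ^ 2) ≤ X / (8 * L ^ 2) - 1 := by
      have h3 : (1 : ℝ) ≤ X / (16 * L ^ 2) := by
        rw [le_div_iff₀ (by positivity), one_mul]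
        exact n5
      have h4 : (X : ℝ) / (8 * L ^ 2) = 2 * (X / (16 * L ^ 2)) := by
        field_simp
        ring
      rw [h4]
      linarith
    calc w * X / (32 * L ^ 2) = w / 2 * (X / (16 * L ^ 2)) := by field_simp; ring
      _ ≤ (V.card : ℝ) * (X / (8 * L ^ 2) - 1) := mul_le_mul hVc h2 (by positivity) (Nat.cast_nonneg _)
  -- the coincidences
  have hV1 : (V.card : ℝ) ≤ w := by rw [hw]; exact_mod_cast card_le_card hVW
  have hV0 : (0 : ℝ) ≤ V.card := Nat.cast_nonneg _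
  obtain ⟨B, hB⟩ : ∃ B : ℝ, B = C₁ * X * M ^ 4 / L ^ 4 := ⟨_, rfl⟩
  have hB0 : 0 ≤ B := by rw [hB]; positivity
  have hQ : ((coin V X).card : ℝ) ≤ (4 + 2 * C₁) * w ^ 2 * (X * M ^ 4 / L ^ 4) := by
    have h1 := coin_le (by omega : 1 ≤ X) hVI (fun m hm => hodd m (hVW hm)) B (fun a h ha ha2 hh hh2 => by
      have := hsv' a h ha ha2 hh hh2
      rw [← hM, ← hL, ← hB] at this
      exact this)
    have h2 : (V.card : ℝ) * (3 * X) ≤ 3 * (w ^ 2 * (X * M ^ 4 / L ^ 4)) := by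
      have h3 : w * L ^ 4 ≤ w ^ 2 * M ^ 4 := by
        calc w * L ^ 4 ≤ w * w := mul_le_mul_of_nonneg_left hwL hw0.le
          _ = w ^ 2 * 1 := by ring
          _ ≤ w ^ 2 * M ^ 4 := mul_le_mul_of_nonneg_left (one_le_pow₀ n3) (by positivity)
      have h4 : w ≤ w ^ 2 * (M ^ 4 / L ^ 4) := by
        rw [← mul_div_assoc, le_div_iff₀ (by positivity)]
        exact h3
      calc (V.card : ℝ) * (3 * X) ≤ w * (3 * X) := mul_le_mul_of_nonneg_right hV1 (by positivity)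
        _ ≤ (w ^ 2 * (M ^ 4 / L ^ 4)) * (3 * X) := mul_le_mul_of_nonneg_right h4 (by positivity)
        _ = _ := by ring
    have h3 : 2 * (V.card : ℝ) ^ 2 * B ≤ 2 * w ^ 2 * B := by
      apply mul_le_mul_of_nonneg_right _ hB0
      have := pow_le_pow_left₀ hV0 hV1 2
      linarith
    have h4 : 2 * w ^ 2 * B = 2 * C₁ * (w ^ 2 * (X * M ^ 4 / L ^ 4)) := by rw [hB]; ring
    have h5 : 0 ≤ w ^ 2 * (X * M ^ 4 / L ^ 4) := by positivity
    nlinarith
  -- the good n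
  obtain ⟨θ, hθ⟩ : ∃ θ : ℝ, θ = c * w / L ^ 2 := ⟨_, rfl⟩
  have hθ0 : 0 ≤ θ := by rw [hθ]; positivity
  obtain ⟨I, hI⟩ : ∃ I, I = Icc 32 (6 * X) := ⟨_, rfl⟩
  obtain ⟨G, hGdef⟩ : ∃ G, G = I.filter (fun n => θ ≤ (wt V X n : ℝ)) := ⟨_, rfl⟩
  have hsum : ((pr V X).card : ℝ) = ∑ n ∈ I, (wt V X n : ℝ) := by
    rw [hI]
    exact_mod_cast sum_wt n1 hVI
  have hsplit : ∑ n ∈ I, (wt V X n : ℝ) ≤ ∑ n ∈ G, (wt V X n : ℝ) + 6 * X * θ := by
    rw [← sum_filter_add_sum_filter_not I (fun n => θ ≤ (wt V X n : ℝ)), ← hGdef]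
    have h1 : ∑ n ∈ I.filter (fun n => ¬ θ ≤ (wt V X n : ℝ)), (wt V X n : ℝ) ≤ 6 * X * θ := by
      calc ∑ n ∈ I.filter (fun n => ¬ θ ≤ (wt V X n : ℝ)), (wt V X n : ℝ)
          ≤ ∑ n ∈ I.filter (fun n => ¬ θ ≤ (wt V X n : ℝ)), θ := by
            apply sum_le_sum
            intro n hn
            exact (not_le.1 (mem_filter.1 hn).2).le
        _ = ((I.filter (fun n => ¬ θ ≤ (wt V X n : ℝ))).card : ℝ) * θ := by rw [sum_const, nsmul_eq_mul]
        _ ≤ 6 * X * θ := by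
            apply mul_le_mul_of_nonneg_right _ hθ0
            have h2 : (I.filter (fun n => ¬ θ ≤ (wt V X n : ℝ))).card ≤ 6 * X := by
              refine (card_le_card (filter_subset _ _)).trans ?_
              rw [hI, Nat.card_Icc]
              omega
            exact_mod_cast h2
    linarith
  have hhalf : 6 * X * θ ≤ w * X / (64 * L ^ 2) := by
    rw [hθ]
    calc 6 * X * (c * w / L ^ 2) = c * (6 * (w * X / L ^ 2)) := by ring
      _ ≤ 1 / 384 * (6 * (w * X / L ^ 2)) := mul_le_mul_of_nonneg_right hc1 (by positivity)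
      _ = w * X / (64 * L ^ 2) := by field_simp; ring
  have hGsum : w * X / (64 * L ^ 2) ≤ ∑ n ∈ G, (wt V X n : ℝ) := by
    have h1 : w * X / (32 * L ^ 2) = 2 * (w * X / (64 * L ^ 2)) := by field_simp; ring
    linarith
  have hCS : (w * X / (64 * L ^ 2)) ^ 2 ≤ (G.card : ℝ) * ((4 + 2 * C₁) * w ^ 2 * (X * M ^ 4 / L ^ 4)) := by
    calc (w * X / (64 * L ^ 2)) ^ 2 ≤ (∑ n ∈ G, (wt V X n : ℝ)) ^ 2 :=
          pow_le_pow_left₀ (by positivity) hGsum 2
      _ ≤ (G.card : ℝ) * ∑ n ∈ G, (wt V X n : ℝ) ^ 2 := sq_sum_le_card_mul_sum_sq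
      _ ≤ (G.card : ℝ) * ((4 + 2 * C₁) * w ^ 2 * (X * M ^ 4 / L ^ 4)) :=
          mul_le_mul_of_nonneg_left ((sum_sq G).trans hQ) (Nat.cast_nonneg _)
  have hGc : c * X / M ^ 4 ≤ (G.card : ℝ) := by
    have h1 : X / (4096 * (4 + 2 * C₁) * M ^ 4) ≤ (G.card : ℝ) := by
      rw [div_le_iff₀ (by positivity)]
      have h2 : (w * X / (64 * L ^ 2)) ^ 2 = (w ^ 2 * X / L ^ 4) * (X / 4096) := by
        field_simp
        norm_num
      have h3 : (G.card : ℝ) * ((4 + 2 * C₁) * w ^ 2 * (X * M ^ 4 / L ^ 4)) =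
          (w ^ 2 * X / L ^ 4) * ((G.card : ℝ) * ((4 + 2 * C₁) * M ^ 4)) := by ring
      rw [h2, h3] at hCS
      have h4 : 0 < w ^ 2 * X / L ^ 4 := by positivity
      have h5 := le_of_mul_le_mul_left hCS h4
      linarith
    refine le_trans ?_ h1
    calc c * X / M ^ 4 ≤ 1 / (4096 * (4 + 2 * C₁)) * X / M ^ 4 := by gcongr
      _ = X / (4096 * (4 + 2 * C₁) * M ^ 4) := by field_simp
  rw [← hM, ← hL, ← hw]
  refine hGc.trans ?_
  apply Nat.cast_le.2
  apply card_le_card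
  intro n hn
  rw [hGdef, mem_filter] at hn
  rw [mem_filter, ← hI]
  refine ⟨hn.1, ?_⟩
  rw [← hθ]
  exact hn.2.trans (by exact_mod_cast wt_le n1 hW hVW n)

end Pool.Agent.V7H38.TS
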