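import Pool.Agent.V7H38.TS.Main
import Pool.Agent.Y886.PPB

set_option autoImplicit false

/-! # Project TS: sets of primes of positive relative density -/

namespace Pool.Agent.V7H38.TS

open Finset Filter
open Pool.Agent.Y886.PP (rn rn_le G avG)

/-- sets of primes of positive relative density -/
def S_POS : Prop := ∃ c : ℝ, 0 < c ∧ ∀ δ : ℝ, 0 < δ → ∃ X₀ : ℕ, ∀ X : ℕ, X₀ ≤ X → ∀ W : Finset ℕ, W ⊆ Icc X (2 * X) →
  (∀ m ∈ W, m.Prime) → δ * X / Real.log X ≤ W.card →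
  c * δ ^ 2 * X ≤ (((Icc 32 (6 * X)).filter (fun n => c * δ * X / Real.log X ^ 3 ≤ ((ks W n).card : ℝ))).card : ℝ)

lemma wt_rn {V : Finset ℕ} {X : ℕ} (hV : V ⊆ Icc X (2 * X)) (hp : ∀ m ∈ V, m.Prime) (n : ℕ) :
    wt V X n ≤ rn (3 * X) n := by
  classical
  unfold wt rn
  apply card_le_card_of_injOn (fun z => z.2)
  · intro z hz
    rw [mem_coe, mem_filter, mem_pr hV] at hz
    obtain ⟨⟨h1, h2, h3, h4⟩, h5⟩ := hz
    have h6 := h3.two_le
    have h7 := h2.two_le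
    have h8 := mem_Icc.1 (hV h1)
    unfold nu at h5
    rw [mem_coe, mem_filter, mem_Icc]
    beta_reduce
    have e1 : n - 3 * z.2 = z.1 + 1 - z.2 := by omega
    have e2 : n - 2 * z.2 - 1 = z.1 := by omega
    rw [e1, e2]
    exact ⟨⟨by omega, by omega⟩, h2, h3, hp _ h1⟩
  · intro z hz z' hz' h
    rw [mem_coe, mem_filter] at hz hz'
    have h5 := hz.2
    have h5' := hz'.2
    simp only at h
    unfold nu at h5 h5'
    refine Prod.ext ?_ h
    omega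

theorem pos_of (hG : S_GOLD) : S_POS := by
  classical
  obtain ⟨C₁, hC₁, N₁, hrn⟩ := rn_le
  obtain ⟨C₂, hC₂, hav⟩ := avG
  obtain ⟨c, hc⟩ : ∃ c : ℝ, c = min (1 / 384) (1 / (4096 * (54 * C₁ ^ 2 * C₂))) := ⟨_, rfl⟩
  have hc0 : 0 < c := by rw [hc]; positivity
  have hc1 : c ≤ 1 / 384 := by rw [hc]; exact min_le_left _ _
  have hc2 : c ≤ 1 / (4096 * (54 * C₁ ^ 2 * C₂)) := by rw [hc]; exact min_le_right _ _
  refine ⟨c, hc0, fun δ hδ => ?_⟩
  obtain ⟨X₂, hgold⟩ := hG 2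
  obtain ⟨X₃, hnum⟩ := ev_num 0
  obtain ⟨X₄, hX₄⟩ : ∃ X₄ : ℕ, ∀ X : ℕ, X₄ ≤ X → 2 / δ ≤ Real.log X := by
    have tL : Tendsto (fun N : ℕ => Real.log (N : ℝ)) atTop atTop :=
      Real.tendsto_log_atTop.comp tendsto_natCast_atTop_atTop
    exact eventually_atTop.1 (tL.eventually_ge_atTop (2 / δ))
  refine ⟨max (max N₁ X₄) (max X₂ X₃), fun X hX W hW hprime hcard => ?_⟩
  have hXN : N₁ ≤ X := (le_max_left _ _).trans ((le_max_left _ _).trans hX)
  have hL4 := hX₄ X ((le_max_right _ _).trans ((le_max_left _ _).trans hX))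
  have hgold' := hgold X ((le_max_left _ _).trans ((le_max_right _ _).trans hX))
  obtain ⟨n1, n2, n3, n4, n5⟩ := hnum X ((le_max_right _ _).trans ((le_max_right _ _).trans hX))
  obtain ⟨L, hL⟩ : ∃ L, L = Real.log X := ⟨_, rfl⟩
  rw [← hL] at n2 n5 hcard hL4
  have hX0 : (0 : ℝ) < X := by exact_mod_cast (by omega : 0 < X)
  have hX32 : (32 : ℝ) ≤ X := by exact_mod_cast n1
  have hL0 : 0 < L := by linarith
  have hodd : ∀ m ∈ W, Odd m := by
    intro m hm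
    have := mem_Icc.1 (hW hm)
    exact (hprime m hm).odd_of_ne_two (by omega)
  obtain ⟨w, hw⟩ : ∃ w : ℝ, w = W.card := ⟨_, rfl⟩
  rw [← hw] at hcard
  have hw0 : 0 < w := lt_of_lt_of_le (by positivity) hcard
  -- the good elements
  obtain ⟨V, hV⟩ : ∃ V, V = W.filter (fun m => (X : ℝ) / (8 * L ^ 2) ≤ ((reps (m + 1)).card : ℝ)) := ⟨_, rfl⟩
  have hVW : V ⊆ W := by rw [hV]; exact filter_subset _ _
  have hVI := hVW.trans hW
  have hVc : w / 2 ≤ (V.card : ℝ) := by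
    have h1 := hgold' ((W \ V).image (fun m => m + 1)) (by
      intro a ha
      rw [mem_image] at ha
      obtain ⟨m, hm, rfl⟩ := ha
      have h2 := mem_Icc.1 (hW (Finset.mem_sdiff.1 hm).1)
      rw [mem_Icc]
      omega) (by
      intro a ha
      rw [mem_image] at ha
      obtain ⟨m, hm, rfl⟩ := ha
      rw [Finset.mem_sdiff] at hm
      refine ⟨(hodd m hm.1).add_one, ?_⟩
      by_contra hcon
      push Not at hcon
      apply hm.2
      rw [hV, mem_filter]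
      rw [← hL] at hcon
      exact ⟨hm.1, hcon⟩)
    rw [card_image_of_injective _ (add_left_injective 1), ← hL] at h1
    have h3 : ((W \ V).card : ℝ) = w - V.card := by
      have := card_sdiff_add_card_eq_card hVW
      rw [hw, eq_sub_iff_add_eq]
      exact_mod_cast this
    rw [h3] at h1
    have h4 : (X : ℝ) / L ^ 2 ≤ w / 2 := by
      have h5 : 2 ≤ δ * L := by
        rw [div_le_iff₀ hδ] at hL4
        linarith
      have h6 : (X : ℝ) / L ^ 2 ≤ δ * X / L / 2 := by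
        rw [div_div, div_le_div_iff₀ (by positivity) (by positivity)]
        have : (X : ℝ) * L * 2 ≤ X * L * (δ * L) := mul_le_mul_of_nonneg_left h5 (by positivity)
        nlinarith
      linarith
    linarith
  -- the pairs
  have hP : w * X / (32 * L ^ 2) ≤ ((pr V X).card : ℝ) := by
    have h1 := pr_ge hVI ((X : ℝ) / (8 * L ^ 2)) (fun m hm => by
      rw [hV, mem_filter] at hm
      exact hm.2)
    refine le_trans ?_ h1
    have h2 : (X : ℝ) / (16 * L ^ 2) ≤ X / (8 * L ^ 2) - 1 := by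
      have h3 : (1 : ℝ) ≤ X / (16 * L ^ 2) := by
        rw [le_div_iff₀ (by positivity), one_mul]
        exact n5
      have h4 : (X : ℝ) / (8 * L ^ 2) = 2 * (X / (16 * L ^ 2)) := by
        field_simp
        ring
      rw [h4]
      linarith
    calc w * X / (32 * L ^ 2) = w / 2 * (X / (16 * L ^ 2)) := by field_simp; ring
      _ ≤ (V.card : ℝ) * (X / (8 * L ^ 2) - 1) := mul_le_mul hVc h2 (by positivity) (Nat.cast_nonneg _)
  have hP' : δ * X ^ 2 / (32 * L ^ 3) ≤ ((pr V X).card : ℝ) := by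
    refine le_trans ?_ hP
    calc δ * X ^ 2 / (32 * L ^ 3) = (δ * X / L) * X / (32 * L ^ 2) := by field_simp
      _ ≤ w * X / (32 * L ^ 2) := by gcongr
  -- the second moment
  obtain ⟨I, hI⟩ : ∃ I, I = Icc 32 (6 * X) := ⟨_, rfl⟩
  have hQ : ∀ S ⊆ I, ∑ n ∈ S, (wt V X n : ℝ) ^ 2 ≤ 54 * C₁ ^ 2 * C₂ * (X ^ 3 / L ^ 6) := by
    intro S hS
    have h1 : ∀ n ∈ I, (wt V X n : ℝ) ^ 2 ≤ (3 * C₁ * X / L ^ 3) ^ 2 * G n ^ 2 := by
      intro n hn
      rw [hI, mem_Icc] at hn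
      rw [← mul_pow]
      apply pow_le_pow_left₀ (Nat.cast_nonneg _)
      have h2 : (wt V X n : ℝ) ≤ rn (3 * X) n := by exact_mod_cast wt_rn hVI (fun m hm => hprime m (hVW hm)) n
      refine h2.trans ((hrn (3 * X) (by omega) n (by omega)).trans ?_)
      have hG0 : 0 ≤ G n := le_trans zero_le_one (Pool.Agent.Y886.PP.G_ge_one n)
      have h3 : L ≤ Real.log ((3 * X : ℕ) : ℝ) := by
        rw [hL]
        apply Real.log_le_log hX0
        push_cast
        linarith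
      calc C₁ * ((3 * X : ℕ) : ℝ) * G n / Real.log ((3 * X : ℕ) : ℝ) ^ 3
          ≤ C₁ * ((3 * X : ℕ) : ℝ) * G n / L ^ 3 := by
            apply div_le_div_of_nonneg_left (by positivity) (by positivity)
            exact pow_le_pow_left₀ hL0.le h3 3
        _ = 3 * C₁ * X / L ^ 3 * G n := by push_cast; ring
    calc ∑ n ∈ S, (wt V X n : ℝ) ^ 2 ≤ ∑ n ∈ I, (wt V X n : ℝ) ^ 2 :=
          sum_le_sum_of_subset_of_nonneg hS (fun _ _ _ => by positivity)
      _ ≤ ∑ n ∈ I, (3 * C₁ * X / L ^ 3) ^ 2 * G n ^ 2 := sum_le_sum h1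
      _ ≤ ∑ n ∈ Icc 4 (6 * X), (3 * C₁ * X / L ^ 3) ^ 2 * G n ^ 2 := by
          apply sum_le_sum_of_subset_of_nonneg
          · rw [hI]
            exact Icc_subset_Icc_left (by omega)
          · intro _ _ _
            positivity
      _ = (3 * C₁ * X / L ^ 3) ^ 2 * ∑ n ∈ Icc 4 (6 * X), G n ^ 2 := by rw [mul_sum]
      _ ≤ (3 * C₁ * X / L ^ 3) ^ 2 * (C₂ * ((6 * X : ℕ) : ℝ)) :=
          mul_le_mul_of_nonneg_left (hav (6 * X)) (by positivity)
      _ = _ := by push_cast; field_simp; ring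
  -- the good n
  obtain ⟨θ, hθ⟩ : ∃ θ : ℝ, θ = c * δ * X / L ^ 3 := ⟨_, rfl⟩
  have hθ0 : 0 ≤ θ := by rw [hθ]; positivity
  obtain ⟨Gs, hGdef⟩ : ∃ Gs, Gs = I.filter (fun n => θ ≤ (wt V X n : ℝ)) := ⟨_, rfl⟩
  have hGI : Gs ⊆ I := by rw [hGdef]; exact filter_subset _ _
  have hsum : ((pr V X).card : ℝ) = ∑ n ∈ I, (wt V X n : ℝ) := by
    rw [hI]
    exact_mod_cast sum_wt n1 hVI
  have hsplit : ∑ n ∈ I, (wt V X n : ℝ) ≤ ∑ n ∈ Gs, (wt V X n : ℝ) + 6 * X * θ := by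
    rw [← sum_filter_add_sum_filter_not I (fun n => θ ≤ (wt V X n : ℝ)), ← hGdef]
    have h1 : ∑ n ∈ I.filter (fun n => ¬ θ ≤ (wt V X n : ℝ)), (wt V X n : ℝ) ≤ 6 * X * θ := by
      calc ∑ n ∈ I.filter (fun n => ¬ θ ≤ (wt V X n : ℝ)), (wt V X n : ℝ)
          ≤ ∑ n ∈ I.filter (fun n => ¬ θ ≤ (wt V X n : ℝ)), θ := by
            apply sum_le_sum
            intro n hn
            exact (not_le.1 (mem_filter.1 hn).2).le
        _ = ((I.filter (fun n => ¬ θ ≤ (wt V X n : ℝ))).card : ℝ) * θ := by rw [sum_const, nsmul_eq_mul]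
        _ ≤ 6 * X * θ := by
            apply mul_le_mul_of_nonneg_right _ hθ0
            have h2 : (I.filter (fun n => ¬ θ ≤ (wt V X n : ℝ))).card ≤ 6 * X := by
              refine (card_le_card (filter_subset _ _)).trans ?_
              rw [hI, Nat.card_Icc]
              omega
            exact_mod_cast h2
    linarith
  have hhalf : 6 * X * θ ≤ δ * X ^ 2 / (64 * L ^ 3) := by
    rw [hθ]
    calc 6 * X * (c * δ * X / L ^ 3) = c * (6 * (δ * X ^ 2 / L ^ 3)) := by ring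
      _ ≤ 1 / 384 * (6 * (δ * X ^ 2 / L ^ 3)) := mul_le_mul_of_nonneg_right hc1 (by positivity)
      _ = δ * X ^ 2 / (64 * L ^ 3) := by field_simp; ring
  have hGsum : δ * X ^ 2 / (64 * L ^ 3) ≤ ∑ n ∈ Gs, (wt V X n : ℝ) := by
    have h1 : δ * X ^ 2 / (32 * L ^ 3) = 2 * (δ * X ^ 2 / (64 * L ^ 3)) := by field_simp; ring
    linarith
  have hCS : (δ * X ^ 2 / (64 * L ^ 3)) ^ 2 ≤ (Gs.card : ℝ) * (54 * C₁ ^ 2 * C₂ * (X ^ 3 / L ^ 6)) := by
    calc (δ * X ^ 2 / (64 * L ^ 3)) ^ 2 ≤ (∑ n ∈ Gs, (wt V X n : ℝ)) ^ 2 :=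
          pow_le_pow_left₀ (by positivity) hGsum 2
      _ ≤ (Gs.card : ℝ) * ∑ n ∈ Gs, (wt V X n : ℝ) ^ 2 := sq_sum_le_card_mul_sum_sq
      _ ≤ (Gs.card : ℝ) * (54 * C₁ ^ 2 * C₂ * (X ^ 3 / L ^ 6)) :=
          mul_le_mul_of_nonneg_left (hQ Gs hGI) (Nat.cast_nonneg _)
  have hGc : c * δ ^ 2 * X ≤ (Gs.card : ℝ) := by
    have h1 : δ ^ 2 * X / (4096 * (54 * C₁ ^ 2 * C₂)) ≤ (Gs.card : ℝ) := by
      rw [div_le_iff₀ (by positivity)]
      have h2 : (δ * X ^ 2 / (64 * L ^ 3)) ^ 2 = (X ^ 3 / L ^ 6) * (δ ^ 2 * X / 4096) := by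
        field_simp
        norm_num
      have h3 : (Gs.card : ℝ) * (54 * C₁ ^ 2 * C₂ * (X ^ 3 / L ^ 6)) =
          (X ^ 3 / L ^ 6) * ((Gs.card : ℝ) * (54 * C₁ ^ 2 * C₂)) := by ring
      rw [h2, h3] at hCS
      have h4 : (0 : ℝ) < X ^ 3 / L ^ 6 := by positivity
      have h5 := le_of_mul_le_mul_left hCS h4
      linarith
    refine le_trans ?_ h1
    calc c * δ ^ 2 * X ≤ 1 / (4096 * (54 * C₁ ^ 2 * C₂)) * δ ^ 2 * X := by gcongr
      _ = δ ^ 2 * X / (4096 * (54 * C₁ ^ 2 * C₂)) := by field_simp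
  rw [← hL]
  refine hGc.trans ?_
  apply Nat.cast_le.2
  apply card_le_card
  intro n hn
  rw [hGdef, mem_filter] at hn
  rw [mem_filter, ← hI]
  refine ⟨hn.1, ?_⟩
  rw [← hθ]
  exact hn.2.trans (by exact_mod_cast wt_le n1 hW hVW n)

end Pool.Agent.V7H38.TS
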