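import Pool.Agent.V7H38.TS.Pos
import Pool.Agent.Y886.PPA
import Pool.Agent.H357R2.SI.Common

set_option autoImplicit false

/-! # Project TS: properties of almost all integers -/

namespace Pool.Agent.V7H38.TS

open Finset Filter
open Pool.Agent.Y886.PP (P P_le P_gt F_inj pi_lower many)

lemma primes_dyadic : ∃ X₀ : ℕ, ∀ X : ℕ, X₀ ≤ X →
    (X : ℝ) / (2 * Real.log X) ≤ (((Icc X (2 * X)).filter Nat.Prime).card : ℝ) := by
  obtain ⟨X₁, h3, h⟩ := Pool.Agent.H357R2.SI.pnt (1 / 20) (by norm_num)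
  have tL : Tendsto (fun N : ℕ => Real.log (N : ℝ)) atTop atTop :=
    Real.tendsto_log_atTop.comp tendsto_natCast_atTop_atTop
  obtain ⟨X₂, h2⟩ := eventually_atTop.1 (tL.eventually_ge_atTop 10)
  refine ⟨max X₁ X₂, fun X hX => ?_⟩
  have hX1 : X₁ ≤ X := (le_max_left _ _).trans hX
  have hL := h2 X ((le_max_right _ _).trans hX)
  obtain ⟨-, hu⟩ := h X hX1
  obtain ⟨hl, -⟩ := h (2 * X) (by omega)
  have hX0 : (0 : ℝ) < X := by exact_mod_cast (by omega : 0 < X)
  have h4 : (Pool.Agent.H357R2.SI.pc X (2 * X) : ℝ) ≤ (((Icc X (2 * X)).filter Nat.Prime).card : ℝ) := by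
    apply Nat.cast_le.2
    unfold Pool.Agent.H357R2.SI.pc
    apply card_le_card
    apply filter_subset_filter
    intro a ha
    rw [mem_Ioc] at ha
    rw [mem_Icc]
    omega
  refine le_trans ?_ h4
  rw [Pool.Agent.H357R2.SI.pc_eq_sub (by omega)]
  obtain ⟨L, hLd⟩ : ∃ L, L = Real.log X := ⟨_, rfl⟩
  rw [← hLd] at hL hu ⊢
  have h5 : Real.log ((2 * X : ℕ) : ℝ) ≤ 11 / 10 * L := by
    push_cast
    rw [Real.log_mul (by norm_num) hX0.ne', ← hLd]
    have := Real.log_two_lt_d9
    linarith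
  have h6 : 0 < Real.log ((2 * X : ℕ) : ℝ) := by
    apply Real.log_pos
    exact_mod_cast (by omega : 1 < 2 * X)
  have h7 : (19 / 11 : ℝ) * (X / L) ≤ (1 - 1 / 20) * ((2 * X : ℕ) : ℝ) / Real.log ((2 * X : ℕ) : ℝ) := by
    have h8 : (1 - 1 / 20) * ((2 * X : ℕ) : ℝ) / (11 / 10 * L) ≤
        (1 - 1 / 20) * ((2 * X : ℕ) : ℝ) / Real.log ((2 * X : ℕ) : ℝ) := by
      apply div_le_div_of_nonneg_left (by positivity) h6 h5
    refine le_trans (le_of_eq ?_) h8
    push_cast
    field_simp
    ring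
  have h9 : (X : ℝ) / (2 * L) = 1 / 2 * (X / L) := by field_simp
  have h10 : (1 + 1 / 20 : ℝ) * X / L = 21 / 20 * (X / L) := by ring
  have h11 : 0 ≤ (X : ℝ) / L := by positivity
  rw [h9]
  rw [h10] at hu
  linarith

open Classical in
/-- the integers `v`, `1 ≤ v ≤ Y`, without the property `R` -/
noncomputable def exc (R : ℕ → Prop) (Y : ℕ) : Finset ℕ := (Icc 1 Y).filter (fun v => ¬ R v)

open Classical in
/-- the primes `r` in `[X, 2 X]` for which `p_r - r - 1` and `p_r - r + 1` have the property `R` -/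
noncomputable def good (R : ℕ → Prop) (X : ℕ) : Finset ℕ :=
  (Icc X (2 * X)).filter (fun r => r.Prime ∧ R (P r - r - 1) ∧ R (P r - r + 1))

/-- most primes have the property -/
lemma good_card : ∃ X₁ : ℕ, ∀ R : ℕ → Prop, ∀ Y₀ : ℕ,
    (∀ Y : ℕ, Y₀ ≤ Y → ((exc R Y).card : ℝ) ≤ Y / (100 * Real.log Y ^ 2)) →
    ∀ X : ℕ, X₁ ≤ X → Y₀ ≤ X → 1 / 5 * (X : ℝ) / Real.log X ≤ ((good R X).card : ℝ) := by
  classical
  have tN : Tendsto (fun N : ℕ => (N : ℝ)) atTop atTop := tendsto_natCast_atTop_atTop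
  have tL : Tendsto (fun N : ℕ => Real.log (N : ℝ)) atTop atTop := Real.tendsto_log_atTop.comp tN
  obtain ⟨N0, hN0⟩ := eventually_atTop.1 pi_lower
  obtain ⟨N1, hN1⟩ := primes_dyadic
  obtain ⟨N2, hN2⟩ := eventually_atTop.1 (tL.eventually_ge_atTop 60)
  refine ⟨max (max N0 N1) (max N2 3), fun R Y₀ hR X hX hXY => ?_⟩
  have hX0 : N0 ≤ X := (le_max_left _ _).trans ((le_max_left _ _).trans hX)
  have hX1 : N1 ≤ X := (le_max_right _ _).trans ((le_max_left _ _).trans hX)
  have hX2 : N2 ≤ X := (le_max_left _ _).trans ((le_max_right _ _).trans hX)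
  have hX3 : 3 ≤ X := (le_max_right _ _).trans ((le_max_right _ _).trans hX)
  have hdy := hN1 X hX1
  have hL := hN2 X hX2
  obtain ⟨L, hLd⟩ : ∃ L, L = Real.log (X : ℝ) := ⟨_, rfl⟩
  rw [← hLd] at hL hdy ⊢
  have hXr : (3 : ℝ) ≤ X := by exact_mod_cast hX3
  obtain ⟨Y, hY⟩ : ∃ Y : ℕ, Y = ⌈8 * X * L⌉₊ := ⟨_, rfl⟩
  have hY1 : (8 : ℝ) * X * L ≤ Y := by rw [hY]; exact Nat.le_ceil _
  have hY2 : (Y : ℝ) ≤ 9 * X * L := by
    have h1 : (Y : ℝ) < 8 * X * L + 1 := by rw [hY]; exact Nat.ceil_lt_add_one (by positivity)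
    have h2 : (1 : ℝ) ≤ X * L := by nlinarith
    linarith
  have hXYr : (2 * X : ℝ) ≤ Y := by nlinarith
  have hYX : 2 * X ≤ Y := by exact_mod_cast hXYr
  have hYr : (1 : ℝ) ≤ Y := by linarith
  have hlY : Real.log Y ≤ 2 * L := by
    have h1 : (Y : ℝ) ≤ X * X := by
      have h2 : 9 * L ≤ X := by
        have h3 : Real.exp L = X := by rw [hLd, Real.exp_log (by linarith)]
        have h4 := Real.pow_div_factorial_le_exp L (by linarith) 2
        rw [h3] at h4
        have h5 : (Nat.factorial 2 : ℝ) = 2 := by norm_num [Nat.factorial]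
        rw [h5, div_le_iff₀ (by norm_num)] at h4
        nlinarith
      calc (Y : ℝ) ≤ 9 * X * L := hY2
        _ = X * (9 * L) := by ring
        _ ≤ X * X := by gcongr
    have h2 := Real.log_le_log (by linarith) h1
    rw [Real.log_mul (by linarith) (by linarith), ← hLd] at h2
    linarith
  have hlY0 : L ≤ Real.log Y := by
    rw [hLd]
    apply Real.log_le_log (by linarith)
    linarith
  have hpi := hN0 Y (by omega)
  have hXpi : 2 * X ≤ Nat.primeCounting Y := by
    have h1 : (2 * X : ℝ) ≤ Nat.primeCounting Y := by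
      refine le_trans ?_ hpi
      rw [le_div_iff₀ (by linarith)]
      calc (2 * X : ℝ) * (2 * Real.log Y) ≤ 2 * X * (2 * (2 * L)) := by gcongr
        _ = 8 * X * L := by ring
        _ ≤ Y := hY1
    exact_mod_cast h1
  have hexc := hR Y (by omega)
  -- the exceptional primes
  obtain ⟨D, hD⟩ : ∃ D : ℕ → Finset ℕ, D = fun e => ((Icc X (2 * X)).filter Nat.Prime).filter
    (fun r => ¬ R (P r - r - 1 + e)) := ⟨_, rfl⟩
  have key : ∀ e : ℕ, e ≤ 2 → ((D e).card : ℝ) ≤ (exc R Y).card := by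
    intro e he
    apply Nat.cast_le.2
    apply card_le_card_of_injOn (fun r => P r - r - 1 + e)
    · intro r hr
      rw [hD, mem_coe] at hr
      beta_reduce at hr
      rw [mem_filter, mem_filter, mem_Icc] at hr
      unfold exc
      rw [mem_coe, mem_filter, mem_Icc]
      beta_reduce
      have h0 : 3 ≤ r := by omega
      have h1 := P_le (q := r) (Y := Y) (by omega) (by omega)
      have h2 : r + 2 ≤ P r := by
        have h3 : r = 3 ∨ 4 ≤ r := by omega
        have h4 := Pool.Agent.Y886.PP.P_step (r - 3)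
        have h5 := P_gt (r - 1) (by omega)
        have e1 : r - 3 + 2 = r - 1 := by omega
        have e2 : r - 3 + 3 = r := by omega
        rw [e1, e2] at h4
        omega
      exact ⟨⟨by omega, by omega⟩, hr.2⟩
    · intro a ha b hb hab
      rw [hD, mem_coe] at ha hb
      beta_reduce at ha hb
      rw [mem_filter, mem_filter, mem_Icc] at ha hb
      exact F_inj e a b (by omega) (by omega) hab
  have hcov : (Icc X (2 * X)).filter Nat.Prime ⊆ good R X ∪ (D 0 ∪ D 2) := by
    intro r hr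
    have hr' := hr
    rw [mem_filter, mem_Icc] at hr'
    rw [mem_union, mem_union]
    by_cases h1 : R (P r - r - 1)
    · by_cases h2 : R (P r - r + 1)
      · left
        unfold good
        rw [mem_filter, mem_Icc]
        exact ⟨hr'.1, hr'.2, h1, h2⟩
      · right
        right
        rw [hD]
        beta_reduce
        rw [mem_filter]
        refine ⟨hr, ?_⟩
        have h3 := P_gt r (by omega)
        have h4 : P r - r - 1 + 2 = P r - r + 1 := by omega
        rw [h4]
        exact h2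
    · right
      left
      rw [hD]
      beta_reduce
      rw [mem_filter]
      exact ⟨hr, h1⟩
  have h1 : (((Icc X (2 * X)).filter Nat.Prime).card : ℝ) ≤ (good R X).card + ((D 0).card + (D 2).card) := by
    have h2 := (card_le_card hcov).trans (card_union_le _ _)
    have h3 := card_union_le (D 0) (D 2)
    have h4 : ((Icc X (2 * X)).filter Nat.Prime).card ≤ (good R X).card + ((D 0).card + (D 2).card) := by omega
    exact_mod_cast h4
  have k0 := key 0 (by omega)
  have k2 := key 2 (by omega)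
  have h5 : (Y : ℝ) / (100 * Real.log Y ^ 2) ≤ 9 / 100 * (X / L) := by
    calc (Y : ℝ) / (100 * Real.log Y ^ 2) ≤ (9 * X * L) / (100 * L ^ 2) := by
          apply div_le_div₀ (by positivity) hY2 (by positivity)
          gcongr
      _ = 9 / 100 * (X / L) := by field_simp
  have h6 : (X : ℝ) / (2 * L) = 1 / 2 * (X / L) := by field_simp
  have h7 : 1 / 5 * (X : ℝ) / L = 1 / 5 * (X / L) := by ring
  have h8 : 0 ≤ (X : ℝ) / L := by positivity
  rw [h6] at hdy
  rw [h7]
  linarith

end Pool.Agent.V7H38.TS
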