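import Pool.Agent.V7H38.TS.PosB

set_option autoImplicit false

/-! # Project TS: numbers with few divisors -/

namespace Pool.Agent.V7H38.TS

open Finset Filter
open Pool.Agent.Y886.PP (P P_le P_gt F_inj pi_lower many)

open Classical in
/-- the `k` for which `r = q(n,k)` is a prime and `p_r - r - 1` and `p_r - r + 1` have the property `R` -/
noncomputable def kR (R : ℕ → Prop) (n : ℕ) : Finset ℕ :=
  (Ico 1 (n - 2)).filter (fun k => (q n k).Prime ∧ R (P (q n k) - q n k - 1) ∧ R (P (q n k) - q n k + 1))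

/-- properties of almost all integers -/
def S_PROP : Prop := ∃ c : ℝ, 0 < c ∧ ∀ R : ℕ → Prop,
  (∃ Y₀ : ℕ, ∀ Y : ℕ, Y₀ ≤ Y → ((exc R Y).card : ℝ) ≤ Y / (100 * Real.log Y ^ 2)) →
  ∃ X₀ : ℕ, ∀ X : ℕ, X₀ ≤ X →
  c * X ≤ (((Icc 32 (6 * X)).filter (fun n => c * X / Real.log X ^ 3 ≤ ((kR R n).card : ℝ))).card : ℝ)

open Classical in
theorem prop_of (h : S_POS) : S_PROP := by
  obtain ⟨c, hc, hpos⟩ := h
  obtain ⟨X₁, hX₁⟩ := good_card
  refine ⟨c / 25, by positivity, fun R ⟨Y₀, hR⟩ => ?_⟩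
  obtain ⟨X₂, hX₂⟩ := hpos (1 / 5) (by norm_num)
  refine ⟨max (max X₁ Y₀) (max X₂ 3), fun X hX => ?_⟩
  have h1 : X₁ ≤ X := (le_max_left _ _).trans ((le_max_left _ _).trans hX)
  have h2 : Y₀ ≤ X := (le_max_right _ _).trans ((le_max_left _ _).trans hX)
  have h3 : X₂ ≤ X := (le_max_left _ _).trans ((le_max_right _ _).trans hX)
  have h4 : 3 ≤ X := (le_max_right _ _).trans ((le_max_right _ _).trans hX)
  have hX0 : (3 : ℝ) ≤ X := by exact_mod_cast h4
  have hL : 0 < Real.log X := Real.log_pos (by linarith)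
  have h5 := hX₂ X h3 (good R X) (by unfold good; exact filter_subset _ _) (fun m hm => by
    unfold good at hm
    rw [mem_filter] at hm
    exact hm.2.1) (hX₁ R Y₀ hR X h1 h2)
  have e : c * (1 / 5 : ℝ) ^ 2 * X = c / 25 * X := by ring
  rw [e] at h5
  refine h5.trans ?_
  apply Nat.cast_le.2
  apply card_le_card
  intro n hn
  rw [mem_filter] at hn ⊢
  refine ⟨hn.1, ?_⟩
  have h6 : c / 25 * X / Real.log X ^ 3 ≤ c * (1 / 5) * X / Real.log X ^ 3 := by
    apply div_le_div_of_nonneg_right _ (by positivity)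
    apply mul_le_mul_of_nonneg_right _ (by linarith)
    linarith
  refine h6.trans (hn.2.trans ?_)
  apply Nat.cast_le.2
  apply card_le_card
  intro k hk
  unfold ks good at hk
  unfold kR
  rw [mem_filter, mem_filter] at hk
  rw [mem_filter]
  exact ⟨hk.1, hk.2.2⟩

/-- few integers `v` have more than `(log v) ^ A` divisors, `A > 3` -/
lemma few_div (A : ℝ) (hA : 3 < A) : ∃ Y₀ : ℕ, ∀ Y : ℕ, Y₀ ≤ Y →
    ((exc (fun v => (v.divisors.card : ℝ) ≤ Real.log v ^ A) Y).card : ℝ) ≤ Y / (100 * Real.log Y ^ 2) := by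
  classical
  have tN : Tendsto (fun N : ℕ => (N : ℝ)) atTop atTop := tendsto_natCast_atTop_atTop
  have tL : Tendsto (fun N : ℕ => Real.log (N : ℝ)) atTop atTop := Real.tendsto_log_atTop.comp tN
  have tR : Tendsto (fun N : ℕ => Real.log (N : ℝ) ^ (A - 3)) atTop atTop :=
    (tendsto_rpow_atTop (by linarith)).comp tL
  obtain ⟨N1, hN1⟩ := eventually_atTop.1 (tL.eventually_ge_atTop 9600)
  obtain ⟨N2, hN2⟩ := eventually_atTop.1 (tR.eventually_ge_atTop (400 * 2 ^ A))
  refine ⟨max (max N1 N2) 3, fun Y hY => ?_⟩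
  have h1 := hN1 Y ((le_max_left _ _).trans ((le_max_left _ _).trans hY))
  have h2 := hN2 Y ((le_max_right _ _).trans ((le_max_left _ _).trans hY))
  have h3 : 3 ≤ Y := (le_max_right _ _).trans hY
  obtain ⟨L, hL⟩ : ∃ L, L = Real.log (Y : ℝ) := ⟨_, rfl⟩
  rw [← hL] at h1 h2 ⊢
  have hY0 : (3 : ℝ) ≤ Y := by exact_mod_cast h3
  have hL0 : 0 < L := by linarith
  obtain ⟨T, hT⟩ : ∃ T : ℝ, T = (L / 2) ^ A := ⟨_, rfl⟩
  have hT0 : 0 < T := by rw [hT]; positivity
  obtain ⟨s, hs⟩ : ∃ s : ℕ, s = ⌊Real.exp (L / 2)⌋₊ := ⟨_, rfl⟩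
  have hm := many Y T hT0
  rw [← hL] at hm
  have hsub : exc (fun v => (v.divisors.card : ℝ) ≤ Real.log v ^ A) Y ⊆
      Icc 1 s ∪ (Ioc 0 Y).filter (fun v => T < (v.divisors.card : ℝ)) := by
    intro v hv
    unfold exc at hv
    rw [mem_filter, mem_Icc, not_le] at hv
    rw [mem_union, mem_Icc, mem_filter, mem_Ioc]
    by_cases hvs : v ≤ s
    · left
      exact ⟨hv.1.1, hvs⟩
    · right
      refine ⟨⟨by omega, hv.1.2⟩, lt_of_le_of_lt ?_ hv.2⟩
      rw [hT]
      apply Real.rpow_le_rpow (by positivity) _ (by linarith)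
      have h4 : Real.exp (L / 2) < v := by
        rw [← Nat.floor_lt (Real.exp_pos _).le, ← hs]
        omega
      have h5 := Real.log_le_log (Real.exp_pos _) h4.le
      rwa [Real.log_exp] at h5
  have h4 := (card_le_card hsub).trans (card_union_le _ _)
  rw [Nat.card_Icc, Nat.add_sub_cancel] at h4
  have h5 : ((exc (fun v => (v.divisors.card : ℝ) ≤ Real.log v ^ A) Y).card : ℝ) ≤
      s + ((Ioc 0 Y).filter (fun v => T < (v.divisors.card : ℝ))).card := by exact_mod_cast h4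
  have h6 : (s : ℝ) ≤ Real.exp (L / 2) := by rw [hs]; exact Nat.floor_le (Real.exp_pos _).le
  have hexpL : Real.exp L = Y := by rw [hL, Real.exp_log (by linarith)]
  have h7 : Real.exp (L / 2) ≤ Y / (200 * L ^ 2) := by
    rw [le_div_iff₀ (by positivity)]
    have h8 : 200 * L ^ 2 ≤ Real.exp (L / 2) := by
      have h9 := Real.pow_div_factorial_le_exp (L / 2) (by linarith) 3
      have h10 : (Nat.factorial 3 : ℝ) = 6 := by norm_num [Nat.factorial]
      rw [h10] at h9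
      refine le_trans ?_ h9
      rw [le_div_iff₀ (by norm_num)]
      have h11 : 9600 * L ^ 2 ≤ L * L ^ 2 := mul_le_mul_of_nonneg_right h1 (by positivity)
      nlinarith
    calc Real.exp (L / 2) * (200 * L ^ 2) ≤ Real.exp (L / 2) * Real.exp (L / 2) :=
          mul_le_mul_of_nonneg_left h8 (Real.exp_pos _).le
      _ = Y := by rw [← Real.exp_add, ← hexpL]; congr 1; ring
  have h8 : (Y : ℝ) * (1 + L) / T ≤ Y / (200 * L ^ 2) := by
    have h9 : T = L ^ 3 * L ^ (A - 3) / 2 ^ A := by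
      rw [hT, Real.div_rpow (by linarith) (by norm_num)]
      congr 1
      have : A = 3 + (A - 3) := by ring
      rw [this, Real.rpow_add hL0]
      norm_num
    rw [div_le_div_iff₀ hT0 (by positivity)]
    have h2A : (0 : ℝ) < 2 ^ A := by positivity
    have h10 : 400 * L ^ 3 ≤ T := by
      rw [h9, le_div_iff₀ h2A]
      calc 400 * L ^ 3 * 2 ^ A = L ^ 3 * (400 * 2 ^ A) := by ring
        _ ≤ L ^ 3 * L ^ (A - 3) := mul_le_mul_of_nonneg_left h2 (by positivity)
    have h11 : (1 + L) * (200 * L ^ 2) ≤ T := by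
      refine le_trans ?_ h10
      nlinarith [sq_nonneg L]
    calc (Y : ℝ) * (1 + L) * (200 * L ^ 2) = Y * ((1 + L) * (200 * L ^ 2)) := by ring
      _ ≤ Y * T := mul_le_mul_of_nonneg_left h11 (by linarith)
  have h9 : (Y : ℝ) / (100 * L ^ 2) = Y / (200 * L ^ 2) + Y / (200 * L ^ 2) := by
    field_simp
    ring
  rw [h9]
  linarith

end Pool.Agent.V7H38.TS
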